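import Mathlib
import Pool.Agent.Lib.CookLevin.Defs
import Pool.Agent.Lib.MP_612bca_lc.Defs
import Pool.Agent.Lib.MP_1cb9f1_lc.Defs
import Pool.Agent.Lib.MP_1cb9f1_lc.Main

/-!
# MP_1cb9f1_lc: recognising unit disk graphs of bounded degree is `∃ℝ`-hard

There is a constant `Δ` such that the recognition problem for unit disk graphs restricted to graphs
of maximum degree at most `Δ` is `∃ℝ`-hard.
-/

namespace Pool.Agent.Results.MP_1cb9f1_lc.BoundedDegreeHard

open Pool.Agent.Lib.MP_1cb9f1_lc

theorem result : ∃ Δ, UDGHard Δ := Pool.Agent.MP1cb9f1.udg_hard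

end Pool.Agent.Results.MP_1cb9f1_lc.BoundedDegreeHard
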